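import Pool.Agent.Helper80.TH.LiftN

/-!
# Project TH (MP_fc6b1e_nt), packet S_SPL
-/

set_option autoImplicit false

namespace Pool.Agent.Helper80.TH

open NumberField Module IsDedekindDomain
open Pool.Agent.Helper51.RP Pool.Agent.Helper17.TH
open Pool.Agent.Helper40.RS (bel gw gw_inj efg val_smul bel_smul lies)
open scoped Pointwise

/-- **S_SPL**. -/
theorem s_spl : Pool.Agent.Helper17.TH.S_SPL := by
  intro K _ _ F₀ F N _ _ _ _ _ _ h0 hN hg W V hVW hV
  let _ := algF h0
  have hG : IsGalois F₀ F := isGalois_algF h0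
  have hfree : FreeP F₀ W := by
    intro g hgW
    obtain ⟨g₁, hg₁, hg₁'⟩ := restr_algF h0 g
    obtain ⟨g', hg', htriv⟩ := lift_key (N := N) hg g₁ hg₁' h0
    have h1 : g₁ = 1 := by
      apply htriv
      apply hV
      refine fun y ↦ val_smul g' V V ?_ y
      -- `g'` maps `V` to `V`
      have key : ∀ z : 𝓞 N, g' • z ∈ V.asIdeal ↔ z ∈ V.asIdeal := by
        intro z
        obtain ⟨y, e1⟩ := exists_int hN z
        have e2 : (((g' • z : 𝓞 N) : N) : AlgebraicClosure K) =
            (((g₁ • y : 𝓞 F) : F) : AlgebraicClosure K) := by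
          exact hg' (z : N) (y : F) e1
        rw [hVW _ _ e2, hVW _ _ e1, ← HeightOneSpectrum.valuation_lt_one_iff_mem (K := F) W,
          ← HeightOneSpectrum.valuation_lt_one_iff_mem (K := F) W]
        change W.valuation F (g₁ (y : F)) < 1 ↔ W.valuation F (y : F) < 1
        rw [hg₁, hgW]
      ext x
      rw [Ideal.mem_pointwise_smul_iff_inv_smul_mem, ← key, smul_inv_smul]
    apply AlgEquiv.ext
    intro x
    rw [← hg₁, h1]
    rfl
  obtain ⟨π, hπ⟩ := Pool.Agent.Helper13.RD.exists_unif (K := F₀) W hfree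
  exact uni_of h0 W π hπ

end Pool.Agent.Helper80.TH
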