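import Pool.Agent.Helper80.TH.LiftN

/-!
# Project TH (MP_fc6b1e_nt), packet S_UNR
-/

set_option autoImplicit false

namespace Pool.Agent.Helper80.TH

open NumberField Module IsDedekindDomain
open Pool.Agent.Helper51.RP Pool.Agent.Helper17.TH
open Pool.Agent.Helper40.RS (bel gw gw_inj efg val_smul bel_smul lies)
open scoped Pointwise

section

variable {K M : Type} [Field K] [NumberField K] [Field M] [NumberField M] [Algebra K M]
  [IsGalois K M]

theorem perfect_res (v : HeightOneSpectrum (𝓞 K)) : PerfectField v.asIdeal.ResidueField := by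
  have : v.asIdeal.IsMaximal := v.isMaximal
  have : Finite (𝓞 K ⧸ v.asIdeal) := Ideal.finiteQuotientOfFreeOfNeBot v.asIdeal v.ne_bot
  have : Finite v.asIdeal.ResidueField :=
    Finite.of_surjective _ (Ideal.bijective_algebraMap_quotient_residueField v.asIdeal).2
  infer_instance

theorem card_inertia (W : HeightOneSpectrum (𝓞 M)) :
    Nat.card (W.asIdeal.inertia (M ≃ₐ[K] M)) = (bel K W).asIdeal.ramificationIdx' W.asIdeal := by
  have := perfect_res (bel K W)
  rw [Ideal.card_inertia_eq_ramificationIdxIn (R := 𝓞 K) (bel K W).asIdeal W.asIdeal,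
    Ideal.ramificationIdxIn_eq_ramificationIdx (bel K W).asIdeal W.asIdeal (M ≃ₐ[K] M),
    Ideal.ramificationIdx'_eq_ramificationIdx _ _ (bel K W).ne_bot]

/-- A uniformizer in `K` at a prime with trivial inertia group. -/
theorem exists_unif' (W : HeightOneSpectrum (𝓞 M))
    (h : (bel K W).asIdeal.ramificationIdx' W.asIdeal = 1) :
    ∃ π : K, W.valuation M (algebraMap K M π) = WithZero.exp (-1 : ℤ) := by
  obtain ⟨π, hπ⟩ := (bel K W).valuation_exists_uniformizer K
  refine ⟨π, ?_⟩
  have := lies (K := K) W
  rw [← (bel K W).valuation_liesOver M W, h, pow_one, hπ]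

end

/-- **S_UNR**. -/
theorem s_unr : Pool.Agent.Helper17.TH.S_UNR := by
  intro K _ _ F₀ F N _ _ _ _ _ _ h0 hN hg W v hWv hV
  let _ := algF h0
  have hG : IsGalois F₀ F := isGalois_algF h0
  have hram : (bel F₀ W).asIdeal.ramificationIdx' W.asIdeal = 1 := by
    rw [← card_inertia, Nat.card_eq_one_iff_unique]
    refine ⟨⟨fun a b ↦ ?_⟩, ⟨1⟩⟩
    have key : ∀ g : W.asIdeal.inertia (F ≃ₐ[F₀] F), g = 1 := by
      rintro ⟨g, hgW⟩
      obtain ⟨g₁, hg₁, hg₁'⟩ := restr_algF h0 g
      obtain ⟨g', hg', htriv⟩ := lift_key (N := N) hg g₁ hg₁' h0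
      have h1 : g₁ = 1 := by
        apply htriv
        -- the prime of `N` below `W`
        let _ := algF hN
        have hcard : Nat.card ((bel N W).asIdeal.inertia (N ≃ₐ[K] N)) = 1 := by
          rw [card_inertia]
          have hb : bel K (bel N W) = v := by
            apply HeightOneSpectrum.ext
            rw [← hWv]
            ext x
            change algebraMap (𝓞 N) (𝓞 F) (algebraMap (𝓞 K) (𝓞 N) x) ∈ W.asIdeal ↔
              algebraMap (𝓞 K) (𝓞 F) x ∈ W.asIdeal
            have : algebraMap (𝓞 N) (𝓞 F) (algebraMap (𝓞 K) (𝓞 N) x) =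
              algebraMap (𝓞 K) (𝓞 F) x := rfl
            rw [this]
          have hl := lies (K := K) (bel N W)
          rw [hb] at hl ⊢
          refine Ideal.ramificationIdx'_spec ?_ (hV (bel N W))
          rw [pow_one, Ideal.map_le_iff_le_comap]
          exact le_of_eq hl.over
        have hmem : g' ∈ (bel N W).asIdeal.inertia (N ≃ₐ[K] N) := by
          intro z
          obtain ⟨y, e1⟩ := exists_int hN z
          have e2 : (((g' • z : 𝓞 N) : N) : AlgebraicClosure K) =
              (((g₁ • y : 𝓞 F) : F) : AlgebraicClosure K) := hg' (z : N) (y : F) e1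
          have h3 := hgW y
          have h4 : g • y = g₁ • y := RingOfIntegers.ext (hg₁ (y : F)).symm
          rw [h4] at h3
          change algebraMap (𝓞 N) (𝓞 F) (g' • z - z) ∈ W.asIdeal
          have h5 : algebraMap (𝓞 N) (𝓞 F) (g' • z - z) = g₁ • y - y := by
            rw [map_sub]
            congr 1
            · exact RingOfIntegers.ext (Subtype.ext e2)
            · exact RingOfIntegers.ext (Subtype.ext e1)
          rw [h5]
          exact h3
        rw [Nat.card_eq_one_iff_unique] at hcard
        have h6 := hcard.1.elim (⟨g', hmem⟩ : (bel N W).asIdeal.inertia (N ≃ₐ[K] N)) 1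
        exact congrArg Subtype.val h6
      apply Subtype.ext
      apply AlgEquiv.ext
      intro x
      change g x = x
      rw [← hg₁, h1]
      rfl
    rw [key a, key b]
  obtain ⟨π, hπ⟩ := exists_unif' (K := F₀) W hram
  exact uni_of h0 W π hπ

end Pool.Agent.Helper80.TH
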