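import Mathlib

/-!
# Project TH (MP_fc6b1e_nt), packet E_LOG: the logarithm on the units of `ℤ_p`
-/

set_option autoImplicit false

namespace Pool.Agent.Helper80.TH

open Filter Topology

/-- The modulus: `p` for odd `p`, `4` for `p = 2`. -/
def qq (p : ℕ) : ℕ := if p = 2 then 4 else p

section alg

variable {R : Type} [CommRing R]

theorem pow_step_odd (p : ℕ) (hp : p.Prime) (h2 : p ≠ 2) (t : R) (h : (p : R) ∣ t) :
    ∃ z : R, (1 + t) ^ p = 1 + p * t * (1 + t * z) := by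
  have hp3 : 3 ≤ p := by
    have := hp.two_le
    omega
  obtain ⟨s, hs⟩ := h
  -- the binomial expansion
  have h1 : (1 + t) ^ p = ∑ k ∈ Finset.range (p + 1), t ^ k * (p.choose k : R) := by
    rw [add_comm, add_pow]
    refine Finset.sum_congr rfl fun k _ ↦ ?_
    rw [one_pow, mul_one]
  have h2 : ∀ k ∈ Finset.range (p - 2), ∃ c : R,
      t ^ (k + 2) * (p.choose (k + 2) : R) = p * t * (t * c) := by
    intro k hk
    rw [Finset.mem_range] at hk
    obtain ⟨c, hc⟩ := hp.dvd_choose_self (k := k + 2) (by omega) (by omega)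
    refine ⟨t ^ k * (c : R), ?_⟩
    rw [hc]
    push_cast
    ring
  choose! c hc using h2
  have h3 : t ^ p = p * t * (t * (t ^ (p - 3) * s)) := by
    obtain ⟨m, rfl⟩ : ∃ m, p = m + 3 := ⟨p - 3, by omega⟩
    have e : m + 3 - 3 = m := by omega
    rw [e]
    calc t ^ (m + 3) = t ^ (m + 2) * t := by ring
      _ = t ^ (m + 2) * (((m + 3 : ℕ) : R) * s) := by rw [← hs]
      _ = ((m + 3 : ℕ) : R) * t * (t * (t ^ m * s)) := by ring
  refine ⟨∑ k ∈ Finset.range (p - 2), c k + t ^ (p - 3) * s, ?_⟩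
  have h4 : ∑ k ∈ Finset.range (p + 1), t ^ k * (p.choose k : R) =
      1 + p * t + ∑ k ∈ Finset.range (p - 2), t ^ (k + 2) * (p.choose (k + 2) : R) + t ^ p := by
    rw [Finset.sum_range_succ, Nat.choose_self, Nat.cast_one, mul_one]
    congr 1
    obtain ⟨m, rfl⟩ : ∃ m, p = m + 2 := ⟨p - 2, by omega⟩
    have e : m + 2 - 2 = m := by omega
    rw [e, Finset.sum_range_succ', Finset.sum_range_succ']
    simp only [Nat.choose_zero_right, pow_zero, Nat.cast_one, mul_one, zero_add, pow_one,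
      Nat.choose_one_right]
    ring
  rw [h1, h4, h3, Finset.sum_congr rfl hc, ← Finset.mul_sum, ← Finset.mul_sum]
  ring

theorem pow_step (p : ℕ) (hp : p.Prime) (n : ℕ) (t : R) (h : ((qq p : ℕ) : R) * (p : R) ^ n ∣ t) :
    ∃ y : R, (1 + t) ^ p = 1 + p * t * (1 + y) ∧ (p : R) ^ n ∣ y ∧ (p : R) ∣ y := by
  by_cases h2 : p = 2
  · subst h2
    obtain ⟨s, hs⟩ := h
    have e : ((qq 2 : ℕ) : R) = 4 := by
      unfold qq
      norm_num
    rw [e] at hs
    push_cast at hs ⊢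
    refine ⟨2 * 2 ^ n * s, ?_, ⟨2 * s, by ring⟩, ⟨2 ^ n * s, by ring⟩⟩
    rw [hs]
    ring
  · have e : ((qq p : ℕ) : R) = p := by
      unfold qq
      rw [if_neg h2]
    rw [e] at h
    obtain ⟨z, hz⟩ := pow_step_odd p hp h2 t ((Dvd.intro _ rfl).trans h)
    refine ⟨t * z, hz, ?_, ?_⟩
    · exact ((Dvd.intro_left _ rfl).trans h).mul_right z
    · exact ((Dvd.intro _ rfl).trans h).mul_right z

/-- The sequence `a_n = (v^(p^n) - 1)/p^n`. -/
theorem exists_seq (p : ℕ) (hp : p.Prime) (v : R) (hv : ((qq p : ℕ) : R) ∣ v - 1) :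
    ∃ a : ℕ → R, (∀ n, v ^ p ^ n = 1 + (p : R) ^ n * a n) ∧ a 0 = v - 1 ∧
      ∀ n, ∃ y : R, a (n + 1) = a n * (1 + y) ∧ (p : R) ^ n ∣ y ∧ (p : R) ∣ y := by
  have key : ∀ n (x : R), ((qq p : ℕ) : R) ∣ x → ∃ y : R,
      (1 + (p : R) ^ n * x) ^ p = 1 + p * ((p : R) ^ n * x) * (1 + y) ∧
        (p : R) ^ n ∣ y ∧ (p : R) ∣ y := by
    intro n x hx
    apply pow_step p hp n
    rw [mul_comm]
    exact mul_dvd_mul_left _ hx
  choose! Y hY using key
  let a : ℕ → R := fun n ↦ Nat.rec (v - 1) (fun n x ↦ x * (1 + Y n x)) n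
  have ha0 : a 0 = v - 1 := rfl
  have ha1 : ∀ n, a (n + 1) = a n * (1 + Y n (a n)) := fun n ↦ rfl
  have haq : ∀ n, ((qq p : ℕ) : R) ∣ a n := by
    intro n
    induction n with
    | zero => exact hv
    | succ n ih =>
      rw [ha1]
      exact ih.mul_right _
  refine ⟨a, fun n ↦ ?_, ha0, fun n ↦ ⟨Y n (a n), ha1 n, (hY n _ (haq n)).2⟩⟩
  induction n with
  | zero =>
    rw [ha0]
    ring
  | succ n ih =>
    rw [pow_succ, pow_mul, ih, (hY n _ (haq n)).1, ha1]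
    ring

end alg

section padic

variable {p : ℕ} [hp : Fact p.Prime]

theorem exists_lam (v : ℤ_[p]) (hv : ((qq p : ℕ) : ℤ_[p]) ∣ v - 1) :
    ∃ (lam : ℤ_[p]) (a : ℕ → ℤ_[p]), (∀ n, v ^ p ^ n = 1 + (p : ℤ_[p]) ^ n * a n) ∧
      Tendsto a atTop (𝓝 lam) ∧ ‖lam‖ = ‖v - 1‖ := by
  obtain ⟨a, h1, h2, h3⟩ := exists_seq p hp.out v hv
  have hnorm : ∀ n, ‖a n‖ = ‖v - 1‖ := by
    intro n
    induction n with
    | zero => rw [h2]
    | succ n ih =>
      obtain ⟨y, hy, -, hpy⟩ := h3 n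
      have hy1 : ‖y‖ < 1 := (PadicInt.norm_lt_one_iff_dvd y).2 hpy
      have hu : ‖(1 : ℤ_[p]) + y‖ = 1 := by
        have h4 : ‖(1 : ℤ_[p]) + y‖ = max ‖(1 : ℤ_[p])‖ ‖y‖ := by
          apply PadicInt.norm_add_eq_max_of_ne
          rw [norm_one]
          exact hy1.ne'
        rw [h4, norm_one]
        exact max_eq_left hy1.le
      rw [hy, norm_mul, hu, mul_one, ih]
  have hd : ∀ n, dist (a n) (a (n + 1)) ≤ 1 * ((1 : ℝ) / p) ^ n := by
    intro n
    obtain ⟨y, hy, hpn, -⟩ := h3 n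
    rw [dist_eq_norm, hy]
    have e : a n - a n * (1 + y) = -(a n * y) := by ring
    rw [e, norm_neg, norm_mul]
    have h4 : ‖y‖ ≤ ((1 : ℝ) / p) ^ n := by
      obtain ⟨w, hw⟩ := hpn
      rw [hw, norm_mul, norm_pow, PadicInt.norm_p, one_div]
      exact mul_le_of_le_one_right (by positivity) (PadicInt.norm_le_one w)
    exact mul_le_mul (PadicInt.norm_le_one _) h4 (norm_nonneg _) zero_le_one
  have hlt : (1 : ℝ) / p < 1 := by
    rw [div_lt_one (by exact_mod_cast hp.out.pos)]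
    exact_mod_cast hp.out.one_lt
  have hc : CauchySeq a := cauchySeq_of_le_geometric _ _ hlt hd
  obtain ⟨lam, hlam⟩ := cauchySeq_tendsto_of_complete hc
  refine ⟨lam, a, h1, hlam, ?_⟩
  have h5 : Tendsto (fun n ↦ ‖a n‖) atTop (𝓝 ‖lam‖) := hlam.norm
  have h6 : Tendsto (fun n : ℕ ↦ ‖a n‖) atTop (𝓝 ‖v - 1‖) := by
    simp only [hnorm]
    exact tendsto_const_nhds
  exact tendsto_nhds_unique h5 h6

open Classical in
/-- The logarithm. -/
noncomputable def lam (v : ℤ_[p]) : ℤ_[p] :=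
  if h : ((qq p : ℕ) : ℤ_[p]) ∣ v - 1 then (exists_lam v h).choose else 0

theorem lam_spec (v : ℤ_[p]) (h : ((qq p : ℕ) : ℤ_[p]) ∣ v - 1) :
    ∃ (a : ℕ → ℤ_[p]), (∀ n, v ^ p ^ n = 1 + (p : ℤ_[p]) ^ n * a n) ∧
      Tendsto a atTop (𝓝 (lam v)) ∧ ‖lam v‖ = ‖v - 1‖ := by
  unfold lam
  rw [dif_pos h]
  exact (exists_lam v h).choose_spec

theorem lam_mul (v w : ℤ_[p]) (hv : ((qq p : ℕ) : ℤ_[p]) ∣ v - 1)
    (hw : ((qq p : ℕ) : ℤ_[p]) ∣ w - 1) : lam (v * w) = lam v + lam w := by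
  have hvw : ((qq p : ℕ) : ℤ_[p]) ∣ v * w - 1 := by
    have e : v * w - 1 = (v - 1) * w + (w - 1) := by ring
    rw [e]
    exact dvd_add (hv.mul_right w) hw
  obtain ⟨a, ha, hal, -⟩ := lam_spec v hv
  obtain ⟨b, hb, hbl, -⟩ := lam_spec w hw
  obtain ⟨c, hc, hcl, -⟩ := lam_spec (v * w) hvw
  have hp0 : (p : ℤ_[p]) ≠ 0 := by exact_mod_cast hp.out.ne_zero
  have e : ∀ n, c n = a n + b n + (p : ℤ_[p]) ^ n * (a n * b n) := by
    intro n
    have h1 := hc n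
    rw [mul_pow, ha, hb] at h1
    apply mul_left_cancel₀ (pow_ne_zero n hp0)
    linear_combination -h1
  have h0 : Tendsto (fun n : ℕ ↦ (p : ℤ_[p]) ^ n) atTop (𝓝 0) := by
    apply tendsto_pow_atTop_nhds_zero_of_norm_lt_one
    rw [PadicInt.norm_p]
    exact inv_lt_one_of_one_lt₀ (by exact_mod_cast hp.out.one_lt)
  have h1 : Tendsto c atTop (𝓝 (lam v + lam w + 0 * (lam v * lam w))) := by
    have : c = fun n ↦ a n + b n + (p : ℤ_[p]) ^ n * (a n * b n) := funext e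
    rw [this]
    exact (hal.add hbl).add (h0.mul (hal.mul hbl))
  rw [zero_mul, add_zero] at h1
  exact tendsto_nhds_unique hcl h1

theorem dvd_unit_pow (u : ℤ_[p]ˣ) : ((qq p : ℕ) : ℤ_[p]) ∣ (u : ℤ_[p]) ^ (2 * (p - 1)) - 1 := by
  by_cases h2 : p = 2
  · subst h2
    have e : ((qq 2 : ℕ) : ℤ_[2]) = 2 * 2 := by
      unfold qq
      norm_num
    rw [e]
    have h1 : ((2 : ℕ) : ℤ_[2]) ∣ (u : ℤ_[2]) - 1 := by
      rw [← PadicInt.norm_lt_one_iff_dvd]
      have h3 : ‖(u : ℤ_[2]) - (1 : ℕ)‖ < 1 := by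
        by_contra hcon
        have h4 : PadicInt.toZMod ((u : ℤ_[2]) - 1) = 0 := by
          rw [map_sub, map_one]
          have h5 : IsUnit (PadicInt.toZMod (u : ℤ_[2])) := u.isUnit.map _
          have h6 := ZMod.pow_card_sub_one_eq_one h5.ne_zero
          have e2 : 2 - 1 = 1 := rfl
          rw [e2, pow_one] at h6
          rw [h6, sub_self]
        have h7 : (u : ℤ_[2]) - 1 ∈ RingHom.ker (PadicInt.toZMod : ℤ_[2] →+* ZMod 2) := h4
        rw [PadicInt.ker_toZMod, PadicInt.maximalIdeal_eq_span_p, Ideal.mem_span_singleton,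
          ← PadicInt.norm_lt_one_iff_dvd] at h7
        apply hcon
        rw [Nat.cast_one]
        exact h7
      rwa [Nat.cast_one] at h3
    obtain ⟨w, hw⟩ := h1
    have hu : (u : ℤ_[2]) = 1 + 2 * w := by
      have : (u : ℤ_[2]) = 1 + ((u : ℤ_[2]) - 1) := by ring
      rw [this, hw]
      norm_num
    refine ⟨w * (1 + w), ?_⟩
    have e2 : 2 * (2 - 1) = 2 := rfl
    rw [e2, hu]
    ring
  · have e : ((qq p : ℕ) : ℤ_[p]) = p := by
      unfold qq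
      rw [if_neg h2]
    rw [e]
    have h4 : PadicInt.toZMod ((u : ℤ_[p]) ^ (2 * (p - 1)) - 1) = 0 := by
      rw [map_sub, map_one, map_pow, mul_comm, pow_mul]
      have h5 : IsUnit (PadicInt.toZMod (u : ℤ_[p])) := u.isUnit.map _
      rw [ZMod.pow_card_sub_one_eq_one h5.ne_zero, one_pow, sub_self]
    have h7 : (u : ℤ_[p]) ^ (2 * (p - 1)) - 1 ∈
        RingHom.ker (PadicInt.toZMod : ℤ_[p] →+* ZMod p) := h4
    rwa [PadicInt.ker_toZMod, PadicInt.maximalIdeal_eq_span_p, Ideal.mem_span_singleton] at h7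

/-- The statement E_LOG for one prime. -/
theorem log_exists (p : ℕ) [hp : Fact p.Prime] : ∃ l : ℤ_[p]ˣ →* Multiplicative ℤ_[p],
    (∀ u : ℤ_[p]ˣ, Multiplicative.toAdd (l u) = 0 → u ^ (2 * (p - 1)) = 1) ∧
    ∀ n : ℕ, ∃ c : ℕ, ∀ u : ℤ_[p]ˣ, (p : ℤ_[p]) ^ c ∣ (u : ℤ_[p]) - 1 →
      (p : ℤ_[p]) ^ n ∣ Multiplicative.toAdd (l u) := by
  let f : ℤ_[p]ˣ → ℤ_[p] := fun u ↦ lam ((u : ℤ_[p]) ^ (2 * (p - 1)))
  have hf : ∀ u w, f (u * w) = f u + f w := by
    intro u w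
    change lam (((u * w : ℤ_[p]ˣ) : ℤ_[p]) ^ (2 * (p - 1))) = _
    rw [Units.val_mul, mul_pow]
    exact lam_mul _ _ (dvd_unit_pow u) (dvd_unit_pow w)
  have hnorm : ∀ u, ‖f u‖ = ‖(u : ℤ_[p]) ^ (2 * (p - 1)) - 1‖ := by
    intro u
    obtain ⟨a, -, -, h⟩ := lam_spec _ (dvd_unit_pow u)
    exact h
  refine ⟨{ toFun := fun u ↦ Multiplicative.ofAdd (f u)
            map_one' := ?_
            map_mul' := ?_ }, fun u hu ↦ ?_, fun n ↦ ⟨n, fun u hu ↦ ?_⟩⟩
  · have h := hf 1 1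
    rw [mul_one] at h
    have h0 : f 1 = 0 := by
      have : f 1 + f 1 = f 1 + 0 := by rw [add_zero]; exact h.symm
      exact add_left_cancel this
    rw [h0]
    rfl
  · intro u w
    rw [hf]
    rfl
  · have hu' : f u = 0 := hu
    have h1 := hnorm u
    rw [hu', norm_zero] at h1
    have h2 : (u : ℤ_[p]) ^ (2 * (p - 1)) - 1 = 0 := norm_eq_zero.1 h1.symm
    apply Units.ext
    rw [Units.val_pow_eq_pow_val, Units.val_one]
    exact sub_eq_zero.1 h2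
  · change (p : ℤ_[p]) ^ n ∣ f u
    have h1 : (p : ℤ_[p]) ^ n ∣ (u : ℤ_[p]) ^ (2 * (p - 1)) - 1 := by
      refine hu.trans ?_
      have := sub_dvd_pow_sub_pow (u : ℤ_[p]) 1 (2 * (p - 1))
      rwa [one_pow] at this
    rw [← Ideal.mem_span_singleton, ← PadicInt.norm_le_pow_iff_mem_span_pow] at h1 ⊢
    rw [hnorm]
    exact h1

end padic

end Pool.Agent.Helper80.TH
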