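import Pool.Agent.Helper38.TH.GoalsE
import Pool.Agent.Helper80.TH.Log

/-!
# Project TH (MP_fc6b1e_nt), packet E_LOG
-/

set_option autoImplicit false

namespace Pool.Agent.Helper80.TH

/-- **E_LOG**. -/
theorem e_log : Pool.Agent.Helper38.TH.E_LOG := fun p _ ↦ log_exists p

end Pool.Agent.Helper80.TH
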