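import Pool.Agent.Helper42.TH.Goals1
import Pool.Agent.Helper42.WY.WMOMG
import Pool.Agent.Helper85.PP.DCND

/-!
# Project TH (MP_fc6b1e_nt), packet T_REL
-/

set_option autoImplicit false

namespace Pool.Agent.Helper80.TH

open NumberField Polynomial Module IsDedekindDomain TensorProduct
open Pool.Agent.Helper51.RP Pool.Agent.Helper42.RD Pool.Agent.Helper42.PP Pool.Agent.Helper42.PP1
open Pool.Agent.Helper51.SigLeo Pool.Agent.Helper11.LE Pool.Agent.Helper11.PP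
open Pool.Agent.Helper17.PP (Sys lg)
open Pool.Agent.Helper42.PB
open Pool.Agent.Helper42.PW
open Pool.Agent.Helper38.ND
open Pool.Agent.Helper38.TH (ExX)
open Pool.Agent.Helper42.TH (bv ExC)
open Pool.Agent.Helper79.PP (clp_eq clp_one clp_mul clp_pow clp_eq_one nice_val)
open Pool.Agent.Helper85.PP (valC_iff)

/-- For large `X` the number `lg X` is large. -/
theorem le_lg {X : ℝ} {L₀ : ℕ} (h : (2 : ℝ) ^ L₀ ≤ X) : L₀ ≤ lg X := by
  unfold lg
  have h1 : 2 ^ L₀ ≤ ⌊X⌋₊ := Nat.le_floor (by exact_mod_cast h)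
  exact Nat.le_log_of_pow_le one_lt_two h1

theorem pow_lg_le' {X : ℝ} (hX : 1 ≤ X) : (2 : ℝ) ^ lg X ≤ X := by
  unfold lg
  have h1 : ⌊X⌋₊ ≠ 0 := by
    intro h
    rw [Nat.floor_eq_zero] at h
    linarith
  have h2 : 2 ^ Nat.log 2 ⌊X⌋₊ ≤ ⌊X⌋₊ := Nat.pow_log_le_self 2 h1
  have h3 : (2 : ℝ) ^ Nat.log 2 ⌊X⌋₊ ≤ (⌊X⌋₊ : ℝ) := by exact_mod_cast h2
  exact h3.trans (Nat.floor_le (by linarith))

theorem lt_pow_lg {X : ℝ} : X < (2 : ℝ) ^ (lg X + 1) := by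
  unfold lg
  have h1 : ⌊X⌋₊ < 2 ^ (Nat.log 2 ⌊X⌋₊ + 1) := Nat.lt_pow_succ_log_self one_lt_two _
  have h2 : (⌊X⌋₊ : ℝ) + 1 ≤ (2 : ℝ) ^ (Nat.log 2 ⌊X⌋₊ + 1) := by exact_mod_cast h1
  exact lt_of_lt_of_le (Nat.lt_floor_add_one X) h2

/-- The numerical part. -/
theorem log_bounds {X : ℝ} {F N : ℕ} (hF : 1 ≤ F) (hX : (2 : ℝ) ^ (4 * F) ≤ X)
    (h1 : √X ≤ N) (h2 : (N : ℝ) ≤ X ^ 2) :
    Nat.log 2 (F * N) ≤ 3 * lg X ∧ lg X < 2 * Nat.log 2 (F * N) + 2 := by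
  have hX1 : 1 ≤ X := le_trans (one_le_pow₀ one_le_two) hX
  have hL := le_lg hX
  have hlt := lt_pow_lg (X := X)
  have hle := pow_lg_le' hX1
  have hN0 : 0 < N := by
    have : 0 < √X := Real.sqrt_pos.2 (by linarith)
    exact_mod_cast lt_of_lt_of_le this h1
  constructor
  · have h3 : F * N < 2 ^ (3 * lg X + 1) := by
      have h4 : ((F * N : ℕ) : ℝ) < (2 : ℝ) ^ (3 * lg X + 1) := by
        push_cast
        have h5 : (F : ℝ) * 2 ≤ (2 : ℝ) ^ (lg X) := by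
          have h6 : F * 2 ≤ 2 ^ lg X := by
            have := (Nat.lt_pow_self one_lt_two : lg X < 2 ^ lg X)
            omega
          exact_mod_cast h6
        have h7 : (N : ℝ) < (2 : ℝ) ^ (2 * lg X + 2) := by
          have h8 : X ^ 2 < ((2 : ℝ) ^ (lg X + 1)) ^ 2 :=
            pow_lt_pow_left₀ hlt (by linarith) two_ne_zero
          have h9 : ((2 : ℝ) ^ (lg X + 1)) ^ 2 = (2 : ℝ) ^ (2 * lg X + 2) := by
            rw [← pow_mul]
            congr 1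
            ring
          linarith
        have hF0 : (0 : ℝ) < F := by exact_mod_cast hF
        calc (F : ℝ) * N < F * (2 : ℝ) ^ (2 * lg X + 2) := mul_lt_mul_of_pos_left h7 hF0
          _ = F * 2 * (2 : ℝ) ^ (2 * lg X + 1) := by ring
          _ ≤ (2 : ℝ) ^ (lg X) * (2 : ℝ) ^ (2 * lg X + 1) :=
              mul_le_mul_of_nonneg_right h5 (by positivity)
          _ = (2 : ℝ) ^ (3 * lg X + 1) := by
              rw [← pow_add]
              congr 1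
              ring
      exact_mod_cast h4
    exact Nat.lt_succ_iff.1 (Nat.log_lt_of_lt_pow (by positivity) h3)
  · have h3 : F * N < 2 ^ (Nat.log 2 (F * N) + 1) := Nat.lt_pow_succ_log_self one_lt_two _
    set l := Nat.log 2 (F * N) with hl
    have h4 : (N : ℝ) < (2 : ℝ) ^ (l + 1) := by
      have h5 : N < 2 ^ (l + 1) := lt_of_le_of_lt (Nat.le_mul_of_pos_left N hF) h3
      exact_mod_cast h5
    have h6 : X < (2 : ℝ) ^ (2 * l + 2) := by
      have h7 : √X < (2 : ℝ) ^ (l + 1) := lt_of_le_of_lt h1 h4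
      have h8 : √X ^ 2 < ((2 : ℝ) ^ (l + 1)) ^ 2 :=
        pow_lt_pow_left₀ h7 (Real.sqrt_nonneg _) two_ne_zero
      rw [Real.sq_sqrt (by linarith), ← pow_mul] at h8
      have h9 : (l + 1) * 2 = 2 * l + 2 := by ring
      rwa [h9] at h8
    have h7 : (2 : ℝ) ^ lg X < (2 : ℝ) ^ (2 * l + 2) := lt_of_le_of_lt hle h6
    exact (pow_lt_pow_iff_right₀ one_lt_two).1 h7

/-- **T_REL**. -/
theorem t_rel : Pool.Agent.Helper42.TH.T_REL := by
  classical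
  intro hCND p hpF L K M K₁ M₁ _ _ _ _ _ _ _ _ _ _ _ _ _ ε δ P _ hs B n E Vs s0 aτ haτ
    S₀ f hS₀ hf V V' W' Tb r hTb hV hW
  have hLAB : V_LAB := Pool.Agent.Helper42.PB.v_lab
  have hp : p.Prime := hpF.out
  have := hs.gK
  have := hs.st2
  have := hs.gMK
  have hG2 : IsGalois K₁ M₁ := IsGalois.tower_top_of_isGalois K K₁ M₁
  have hcop := hs.c2
  have hTRF : E_TRF := Pool.Agent.Helper40.RD.e_trf
  have hL := hLAB p ℂ_[p] L K M K₁ M₁ ε δ P hs B aτ n E Vs s0 haτ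
  have hval : ∀ W : HeightOneSpectrum (𝓞 K₁), ∃ W' : HeightOneSpectrum (𝓞 M₁), Above W' W ∧
      ∀ x : K₁, ((p : ℤ) ∣ ordv W' (algebraMap K₁ M₁ x) ↔ (p : ℤ) ∣ ordv W x) := by
    intro W
    obtain ⟨W', hW'⟩ := exists_above' (E := M₁) W
    exact ⟨W', hW', (hTRF p K₁ M₁ hcop W' W hW').1⟩
  have hval1 : ∀ a : K₁ˣ, OmType p K ε (a : K₁) → ∀ v ∈ B.calP,
      ∀ W : HeightOneSpectrum (𝓞 K₁), Above W v →
      ((p : ℤ) ∣ ordv W (a : K₁) ↔ ordp p (B.Q v) a = 0) := by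
    intro a ha v hv W hW
    obtain ⟨W', hW', hx⟩ := hval W
    rw [← hx]
    exact (hL.1 a ha).2.1 v hv W' (above_trans hW hW')
  have hval2 : ∀ a : K₁ˣ, OmType p K ε (a : K₁) → ∀ v ∉ B.S, v ∉ B.calP →
      ∀ W : HeightOneSpectrum (𝓞 K₁), Above W v → (p : ℤ) ∣ ordv W (a : K₁) := by
    intro a ha v hv hv' W hW
    obtain ⟨W', hW', hx⟩ := hval W
    rw [← hx]
    exact (hL.1 a ha).2.2.1 v hv hv' W' (above_trans hW hW')
  obtain ⟨F, hF1, hF2⟩ := hCND p K K₁ ε S₀ B.S B.calP B.Q aτ f hS₀ (fun v hv => hv.1)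
    (fun v hv => (B.Qa v hv).1) hf haτ
  refine ⟨(2 : ℝ) ^ (4 * F + ∑ v ∈ B.S, (2 * (Tb * bv v) + 2) + 2), fun X hX a ha hl hEx hN1 hN2 ↦
    ?_⟩
  have hlab := Pool.Agent.Helper11.PP.mem_lab B (hL.1 a ha).1
  have hfa : f (clp p a) = F * (sysB B E Vs s0 aτ).nm (B.lab a) :=
    hF2 a (B.lab a) ha hl (hval1 a ha) (fun v hv hv' W hW => hval2 a ha v hv hv' W hW) hlab
  have hX' : (2 : ℝ) ^ (4 * F) ≤ X :=
    le_trans (pow_le_pow_right₀ one_le_two (by omega)) hX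
  obtain ⟨hb1, hb2⟩ := log_bounds hF1 hX' hN1 hN2
  rw [← hfa] at hb1 hb2
  have hLL := le_lg hX
  -- the primes with `ValC` outside `B.S`
  have hq : ∀ v : HeightOneSpectrum (𝓞 K), v ∉ B.S → ValC (clp p a) v →
      ∃ q ∈ B.lab a, q.1.1 = v := by
    intro v hvS hC
    rw [valC_iff] at hC
    obtain ⟨W, hW, hd⟩ := hC
    by_cases hvV : v ∈ B.calP
    · have h1 : ordp p (B.Q v) a ≠ 0 := fun h ↦ hd ((hval1 a ha v hvV W hW).2 h)
      exact ⟨⟨(v, Units.mk0 _ h1), hvV⟩, (hlab _).2 rfl, rfl⟩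
    · exact absurd (hval2 a ha v hvS hvV W hW) hd
  rcases hEx with ⟨q, hqb, hqV, hqL⟩ | hcard
  · left
    refine ⟨q.1.1, hV q hqV, ?_, ?_⟩
    · rw [valC_iff]
      refine ⟨B.Q q.1.1, (B.Qa _ q.2).1, fun h ↦ ?_⟩
      have h1 := (hval1 a ha _ q.2 _ (B.Qa _ q.2).1).1 h
      rw [(hlab q).1 hqb] at h1
      exact q.1.2.ne_zero h1
    · have h2 : (sysB B E Vs s0 aτ).bl q = bv q.1.1 := rfl
      rw [h2] at hqL
      have h3 : 3 * Tb * bv q.1.1 = 3 * (Tb * bv q.1.1) := by ring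
      have h4 : 9 * Tb * bv q.1.1 = 9 * (Tb * bv q.1.1) := by ring
      rw [h3] at hqL
      rw [h4]
      omega
  · right
    refine lt_of_le_of_lt ?_ hcard
    have hsub : {v | v ∈ W' ∧ ValC (clp p a) v ∧ Nat.log 2 (f (clp p a)) ≤ Tb * bv v} ⊆
        ((((B.lab a).filter fun q ↦ (sysB B E Vs s0 aτ).spl q ∧
          lg X ≤ 3 * Tb * (sysB B E Vs s0 aτ).bl q).image fun q ↦ q.1.1 :
          Finset (HeightOneSpectrum (𝓞 K))) : Set (HeightOneSpectrum (𝓞 K))) := by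
      rintro v ⟨hvW, hvC, hvl⟩
      have hvS : v ∉ B.S := by
        intro hvS
        have h5 : 2 * (Tb * bv v) + 2 ≤ ∑ v ∈ B.S, (2 * (Tb * bv v) + 2) :=
          Finset.single_le_sum (f := fun v ↦ 2 * (Tb * bv v) + 2) (fun _ _ ↦ Nat.zero_le _) hvS
        omega
      obtain ⟨q, hqb, hqv⟩ := hq v hvS hvC
      rw [Finset.mem_coe, Finset.mem_image]
      refine ⟨q, Finset.mem_filter.2 ⟨hqb, ?_, ?_⟩, hqv⟩
      · change q.1.1 ∈ Vs
        rw [hqv]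
        exact hW v hvW hvS
      · have h2 : (sysB B E Vs s0 aτ).bl q = bv q.1.1 := rfl
        rw [h2, hqv]
        have h3 : 3 * Tb * bv v = 3 * (Tb * bv v) := by ring
        rw [h3]
        omega
    refine (Set.ncard_le_ncard hsub (Finset.finite_toSet _)).trans ?_
    rw [Set.ncard_coe_finset]
    exact Finset.card_image_le

end Pool.Agent.Helper80.TH
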