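import Pool.Agent.Helper17.TH.GoalsII
import Pool.Agent.Helper13.RD.ORB

/-!
# Project TH (MP_fc6b1e_nt), packets S_UNR and S_SPL: automorphisms of `F` over `F₀` and of `N` over `K`
-/

set_option autoImplicit false

namespace Pool.Agent.Helper80.TH

open NumberField Module IsDedekindDomain
open Pool.Agent.Helper51.RP Pool.Agent.Helper17.TH
open Pool.Agent.Helper40.RS (bel gw gw_inj efg val_smul bel_smul lies)
open scoped Pointwise

section

variable {K : Type} [Field K] {F₀ F N : IntermediateField K (AlgebraicClosure K)}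

/-- The restriction to `N` of an automorphism of `F`. -/
theorem lift_key [IsGalois K N] [IsGalois K F]
    (hg : ∀ g : AlgebraicClosure K ≃ₐ[K] AlgebraicClosure K, (∀ x ∈ F₀, g x = x) →
      (∀ x ∈ N, g x = x) → ∀ x ∈ F, g x = x)
    (g : F ≃ₐ[K] F) (hF : ∀ x : F, (x : AlgebraicClosure K) ∈ F₀ → g x = x) (h0 : F₀ ≤ F) :
    ∃ g' : N ≃ₐ[K] N,
      (∀ (x : N) (y : F), (x : AlgebraicClosure K) = y → ((g' x : N) : AlgebraicClosure K) = g y) ∧
      (g' = 1 → g = 1) := by
  have hgF : ∀ y : F, (g.liftNormal (AlgebraicClosure K)) (y : AlgebraicClosure K) =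
      ((g y : F) : AlgebraicClosure K) := fun y ↦
    AlgEquiv.liftNormal_commutes g (AlgebraicClosure K) y
  have hgN : ∀ x : N, (((g.liftNormal (AlgebraicClosure K)).restrictNormal N x : N) :
      AlgebraicClosure K) = (g.liftNormal (AlgebraicClosure K)) (x : AlgebraicClosure K) := fun x ↦
    AlgEquiv.restrictNormal_commutes (g.liftNormal (AlgebraicClosure K)) N x
  refine ⟨(g.liftNormal (AlgebraicClosure K)).restrictNormal N, fun x y hxy ↦ ?_, fun h ↦ ?_⟩
  · rw [hgN, hxy, hgF]
  · apply AlgEquiv.ext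
    intro y
    apply Subtype.ext
    rw [← hgF]
    refine hg _ ?_ ?_ _ y.2
    · intro x hx
      have := hgF ⟨x, h0 hx⟩
      rw [hF ⟨x, h0 hx⟩ hx] at this
      exact this
    · intro x hx
      have := hgN ⟨x, hx⟩
      rw [h] at this
      exact this.symm

/-- The algebra structure of `F` over the subfield `F₀`. -/
@[reducible] noncomputable def algF (h0 : F₀ ≤ F) : Algebra F₀ F :=
  (IntermediateField.inclusion h0).toRingHom.toAlgebra

theorem isGalois_algF [IsGalois K F] (h0 : F₀ ≤ F) :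
    letI := algF h0
    IsGalois F₀ F := by
  let _ := algF h0
  have : IsScalarTower K F₀ F := IsScalarTower.of_algebraMap_eq' rfl
  exact IsGalois.tower_top_of_isGalois K F₀ F

theorem uni_of [NumberField F] (h0 : F₀ ≤ F) (W : HeightOneSpectrum (𝓞 F)) (π : F₀)
    (h : letI := algF h0
      W.valuation F (algebraMap F₀ F π) = WithZero.exp (-1 : ℤ)) : Uni F₀ F W := by
  let _ := algF h0
  refine ⟨algebraMap F₀ F π, π.2, ?_⟩
  unfold ordv
  rw [h, WithZero.log_exp]
  rfl

/-- The automorphism over `K` of an automorphism over `F₀`. -/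
theorem restr_algF (h0 : F₀ ≤ F) (g : letI := algF h0; F ≃ₐ[F₀] F) :
    ∃ g' : F ≃ₐ[K] F, (∀ x, g' x = (letI := algF h0; g x)) ∧
      (∀ x : F, (x : AlgebraicClosure K) ∈ F₀ → g' x = x) := by
  let _ := algF h0
  have : IsScalarTower K F₀ F := IsScalarTower.of_algebraMap_eq' rfl
  refine ⟨AlgEquiv.restrictScalars K g, fun x ↦ rfl, fun x hx ↦ ?_⟩
  exact g.commutes ⟨x, hx⟩

/-- Integers of `N` are integers of `F`. -/
theorem exists_int (hN : N ≤ F) (z : 𝓞 N) :
    ∃ y : 𝓞 F, ((z : N) : AlgebraicClosure K) = ((y : F) : AlgebraicClosure K) := by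
  have h1 : IsIntegral ℤ (z : N) := z.2
  have h2 : IsIntegral ℤ (algebraMap N (AlgebraicClosure K) (z : N)) :=
    (isIntegral_algebraMap_iff (algebraMap N (AlgebraicClosure K)).injective).2 h1
  have h3 : IsIntegral ℤ (⟨((z : N) : AlgebraicClosure K), hN (z : N).2⟩ : F) :=
    (isIntegral_algebraMap_iff (algebraMap F (AlgebraicClosure K)).injective).1 h2
  exact ⟨⟨_, h3⟩, rfl⟩

end

end Pool.Agent.Helper80.TH
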